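import Pool.Agent.helper97.AS.Spec

set_option autoImplicit false

namespace Pool.Agent.helper97.AS

open Pool.Agent.helper20.LB (Step F IsSq Same Bd co)

theorem EXT2 : EXT_stmt := by
  intro f x p M hf hp hM hper
  obtain ⟨τ, hτ⟩ : ∃ τ, τ = f (x + p) - f x := ⟨_, rfl⟩
  rw [← hτ]
  rw [← hτ] at hper
  obtain ⟨g, hg⟩ : ∃ g : ℤ → ℤ, ∀ y, g y = f (x + (y - x) % p) + τ * ((y - x) / p) := ⟨_, fun _ => rfl⟩
  have val : ∀ q r : ℤ, 0 ≤ r → r < p → g (x + r + q * p) = f (x + r) + τ * q := by
    intro q r h0 h1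
    rw [hg]
    have e : x + r + q * p - x = r + q * p := by ring
    rw [e, Int.add_mul_emod_self_right, Int.emod_eq_of_lt h0 h1, Int.add_mul_ediv_right _ _ (by omega),
      Int.ediv_eq_zero_of_lt h0 h1]
    ring
  have dec : ∀ y : ℤ, ∃ q r : ℤ, 0 ≤ r ∧ r < p ∧ y = x + r + q * p := by
    intro y
    refine ⟨(y - x) / p, (y - x) % p, Int.emod_nonneg _ (by omega), Int.emod_lt_of_pos _ (by omega), ?_⟩
    have := Int.emod_add_mul_ediv (y - x) p
    have e : (y - x) / p * p = p * ((y - x) / p) := by ring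
    rw [e]
    omega
  refine ⟨g, ⟨?_, hp, ?_⟩, ?_⟩
  · intro y
    obtain ⟨q, r, h0, h1, rfl⟩ := dec y
    rcases lt_or_ge (r + 1) p with h2 | h2
    · have e : x + r + q * p + 1 = x + (r + 1) + q * p := by ring
      rw [e, val q r h0 h1, val q (r + 1) (by omega) h2]
      have := hf (x + r)
      have e2 : x + (r + 1) = x + r + 1 := by ring
      rw [e2]
      omega
    · have hr : r = p - 1 := by omega
      have e : x + r + q * p + 1 = x + 0 + (q + 1) * p := by rw [hr]; ring
      rw [e, val q r h0 h1, val (q + 1) 0 le_rfl (by omega)]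
      have := hf (x + r)
      have e2 : x + r + 1 = x + p := by rw [hr]; ring
      rw [e2] at this
      have e3 : τ * (q + 1) = τ * q + τ := by ring
      rw [e3, add_zero]
      omega
  · intro y
    obtain ⟨q, r, h0, h1, rfl⟩ := dec y
    have e : x + r + q * p + p = x + r + (q + 1) * p := by ring
    rw [e, val q r h0 h1, val (q + 1) r h0 h1]
    ring
  · have key : ∀ k : ℕ, ∀ r : ℤ, 0 ≤ r → r < p → x + r + k * p ≤ x + p + M →
        f (x + r + k * p) = f (x + r) + τ * k := by
      intro k
      induction k with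
      | zero => intro r _ _ _; simp
      | succ k ih =>
        intro r h0 h1 h2
        have e : x + r + ((k + 1 : ℕ) : ℤ) * p = x + r + k * p + p := by push_cast; ring
        have hk : (0 : ℤ) ≤ k * p := by positivity
        rw [e] at h2 ⊢
        rw [hper (x + r + k * p) (by omega) (by omega), ih r h0 h1 (by omega)]
        push_cast
        ring
    intro y hy1 hy2
    obtain ⟨q, r, h0, h1, rfl⟩ := dec y
    have hq : 0 ≤ q := by
      by_contra hq
      push Not at hq
      have : q * p ≤ -1 * p := Int.mul_le_mul_of_nonneg_right (by omega) (by omega)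
      omega
    obtain ⟨k, rfl⟩ := Int.eq_ofNat_of_zero_le hq
    rw [val _ r h0 h1, key k r h0 h1 hy2]

end Pool.Agent.helper97.AS
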