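import Pool.Agent.helper97.AS.Spec

set_option autoImplicit false

namespace Pool.Agent.helper97.AS

open Pool.Agent.helper20.LB (Step F IsSq Same Bd co)

theorem LIN2 (hLVL : LVL_stmt) : LIN_stmt := by
  intro f p τ x M hper hM
  have hco : Per (co f) p (p - τ) := by
    obtain ⟨h1, h2, h3⟩ := hper
    refine ⟨?_, h2, ?_⟩
    · intro z
      have := h1 z
      unfold co
      constructor <;> omega
    · intro z
      unfold co
      rw [h3 z]
      ring
  constructor
  · intro t h1 h2
    apply hLVL f p τ x M t hper hM h1
    unfold kk at h2
    omega
  · intro t h1 h2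
    apply hLVL (co f) p (p - τ) x M t hco hM h1
    unfold kk at h2
    unfold TT co
    unfold TT at h2
    omega

end Pool.Agent.helper97.AS
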