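import Pool.Agent.helper97.AS.Main
import Pool.Agent.helper97.AS.EXT2
import Pool.Agent.helper97.AS.LIN2
import Pool.Agent.helper18.AS.GOB
import Pool.Agent.helper24.AS.COU
import Pool.Agent.helper26.AS.ROT
import Pool.Agent.helper27.AS.LVL
import Pool.Agent.helper29.AS.HALF
import Pool.Agent.helper30.AS.GOU
import Pool.Agent.helper42.AS.GOA
import Pool.Agent.helper53.AS.UPX
import Pool.Agent.helper54.AS.UNI
import Pool.Agent.helper60.AS.TRA
import Pool.Agent.helper63.AS.PUR
import Pool.Agent.helper66.AS.ALT
import Pool.Agent.helper75.AS.ALX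
import Pool.Agent.helper77.AS.GAL
import Pool.Agent.helper85.AS.ONE
import Pool.Agent.helper91.AS.GOO
import Pool.Agent.helper98.AS.CO1

/-! Project AS: all rows put together. -/

set_option autoImplicit false

namespace Pool.Agent.helper97.AS

theorem fLVL : LVL_stmt := LVL GAL UPX

theorem fHALF : HALF_stmt := HALF GAL UPX

theorem fLIN : LIN_stmt := LIN2 fLVL

theorem fGOO : GOO_stmt := GOO fLIN COU CO1

theorem fGOA : GOA_stmt := GOA EXT2 fGOO PUR ROT ALT ALX TRA

theorem fGOB : GOB_stmt := GOB fLIN COU CO1 fHALF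

theorem fUNI : UNI_stmt := UNI fHALF ONE

theorem fGOU : GOU_stmt := GOU EXT2 fGOO TRA fUNI

/-- every factor that occurs at two different positions has length at most `2 E + 2` -/
theorem general {w u x y x' y' : List Bool} (h : w = x ++ u ++ y) (h' : w = x' ++ u ++ y')
    (hlt : x.length < x'.length) : u.length ≤ 2 * (sqs w).ncard + 2 :=
  M_general EXT2 fLIN COU TRA h h' hlt

/-- both parts of Q1 for words in which a factor of length at least `(n-1)/2` occurs twice -/
theorem main {w u x y x' y' : List Bool} (h : w = x ++ u ++ y) (h' : w = x' ++ u ++ y')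
    (hlt : x.length < x'.length) (hn : w.length ≤ 2 * u.length + 1) :
    w.length / 4 ≤ (sqs w).ncard ∧ ∀ k : ℕ, w.length = 4 * k + 3 → (sqs w).ncard = k →
      (w = List.replicate (2 * k + 1) false ++ [true] ++ List.replicate (2 * k + 1) false ∨
       w = List.replicate (2 * k + 1) true ++ [false] ++ List.replicate (2 * k + 1) true) :=
  M_main fGOA fGOB fGOU EXT2 TRA h h' hlt hn

end Pool.Agent.helper97.AS
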