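import Pool.Agent.helper97.AS.Spec
import Pool.Agent.helper77.LB.W

/-! Project AS: from the prefix counting function to words; assembly. -/

set_option autoImplicit false

namespace Pool.Agent.helper97.AS

open Pool.Agent.helper20.LB (Step F IsSq Same Bd co wf wf_step wf_add W_count W_bd)

/-- the set of abelian squares of a word, as in the frozen statement -/
def sqs (w : List Bool) : Set (List Bool) := {u : List Bool | List.IsInfix u w ∧
    ∃ x y : List Bool, x ≠ [] ∧ List.Perm x y ∧ u = x ++ y}

theorem M_le {w : List Bool} {K : ℕ} (h : Cnt (wf w) 0 w.length K) : K ≤ (sqs w).ncard := by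
  obtain ⟨A, h1, h2, h3⟩ := h
  exact h3.trans (W_bd w A (fun s hs => h1 s hs) h2)

theorem M_letter (w : List Bool) (j : ℕ) (hj : j < w.length) :
    wf w (j + 1) = wf w j + (if w[j] then 1 else 0) := by
  have h := wf_add w j 1
  have e : ((w.drop j).take 1) = [w[j]] := by
    rw [List.drop_eq_getElem_cons hj]
    rfl
  rw [e] at h
  have e2 : ((j + 1 : ℕ) : ℤ) = (j : ℤ) + 1 := by push_cast; ring
  rw [e2] at h
  rw [h]
  cases w[j] <;> simp

theorem M_occ (x u y : List Bool) (m : ℕ) (hm : m ≤ u.length) :
    wf (x ++ u ++ y) ((x.length : ℤ) + m) = wf (x ++ u ++ y) x.length + ((u.take m).count true : ℤ) := by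
  have h := wf_add (x ++ u ++ y) x.length m
  have e : (((x ++ u ++ y).drop x.length).take m) = u.take m := by
    rw [List.append_assoc, List.drop_left, List.take_append_of_le_length hm]
  rw [e] at h
  have e2 : ((x.length + m : ℕ) : ℤ) = (x.length : ℤ) + m := by push_cast; ring
  rw [e2] at h
  exact h

theorem M_per {w u x y x' y' : List Bool} (h : w = x ++ u ++ y) (h' : w = x' ++ u ++ y') :
    ∀ z : ℤ, (x.length : ℤ) ≤ z → z ≤ x.length + u.length →
      wf w (z + (x'.length - x.length)) =
        wf w z + (wf w (x.length + (x'.length - x.length)) - wf w x.length) := by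
  intro z hz1 hz2
  obtain ⟨m, hm⟩ : ∃ m : ℕ, z = x.length + m := ⟨(z - x.length).toNat, by omega⟩
  have hmu : m ≤ u.length := by omega
  have e1 := M_occ x u y m hmu
  have e2 := M_occ x' u y' m hmu
  rw [← h] at e1
  rw [← h'] at e2
  have a1 : z + ((x'.length : ℤ) - x.length) = x'.length + m := by rw [hm]; ring
  have a2 : (x.length : ℤ) + ((x'.length : ℤ) - x.length) = x'.length := by ring
  rw [a1, a2, e2, hm, e1]
  ring

theorem M_ext (w : List Bool) (M : ℕ) (b : Bool) (hw : w.length = 2 * M + 1)
    (h : ∀ j : ℕ, (hj : j < w.length) → w[j] = (if j = M then !b else b)) :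
    w = List.replicate M b ++ [!b] ++ List.replicate M b := by
  apply List.ext_getElem
  · simp [hw]
    omega
  · intro j h1 h2
    rw [h j h1]
    rcases lt_trichotomy j M with hj | hj | hj
    · rw [if_neg (by omega)]
      rw [List.getElem_append_left (by simp; omega), List.getElem_append_left (by simpa using hj)]
      simp
    · subst hj
      rw [if_pos rfl]
      rw [List.getElem_append_left (by simp), List.getElem_append_right (by simp)]
      simp
    · rw [if_neg (by omega)]
      rw [List.getElem_append_right (by simp; omega)]
      simp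

/-- every repeated factor has length at most `2 E + 2` -/
theorem M_general (hEXT : EXT_stmt) (hLIN : LIN_stmt) (hCOU : COU_stmt) (hTRA : TRA_stmt)
    {w u x y x' y' : List Bool} (h : w = x ++ u ++ y) (h' : w = x' ++ u ++ y')
    (hlt : x.length < x'.length) : u.length ≤ 2 * (sqs w).ncard + 2 := by
  have hper := M_per h h'
  have hlen : x'.length + u.length ≤ w.length := by
    rw [h']
    simp
  obtain ⟨g, hg1, hg2⟩ := hEXT (wf w) x.length (x'.length - x.length) u.length (wf_step w)
    (by omega) (by omega) hper
  have hl := hLIN g _ _ x.length u.length hg1 (by omega)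
  have hc := hCOU g _ _ _ _ hl.1 hl.2
  have hc2 := hTRA (wf w) g _ _ w.length _ (by omega) (by omega) hg2 hc
  have hfin := M_le hc2
  have hmono : g (x.length - 1) ≤ g (x.length + u.length + 1) ∧
      g (x.length + u.length + 1) ≤ g (x.length - 1) + (u.length + 2) := by
    have key : ∀ k : ℕ, g ((x.length : ℤ) - 1) ≤ g ((x.length : ℤ) - 1 + k) ∧
        g ((x.length : ℤ) - 1 + k) ≤ g ((x.length : ℤ) - 1) + k := by
      intro k
      induction k with
      | zero => simp
      | succ k ih =>
        have hs := hg1.1 ((x.length : ℤ) - 1 + k)
        have e : (x.length : ℤ) - 1 + ((k + 1 : ℕ) : ℤ) = (x.length : ℤ) - 1 + k + 1 := by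
          push_cast; ring
        rw [e]
        push_cast
        omega
    have k := key (u.length + 2)
    have e : (x.length : ℤ) - 1 + ((u.length + 2 : ℕ) : ℤ) = x.length + u.length + 1 := by
      push_cast; ring
    rw [e] at k
    push_cast at k
    exact k
  unfold kk TT at hfin
  omega

/-- Q1 for words in which a factor of length at least `(n-1)/2` occurs twice -/
theorem M_main (hGOA : GOA_stmt) (hGOB : GOB_stmt) (hGOU : GOU_stmt) (hEXT : EXT_stmt)
    (hTRA : TRA_stmt)
    {w u x y x' y' : List Bool} (h : w = x ++ u ++ y) (h' : w = x' ++ u ++ y')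
    (hlt : x.length < x'.length) (hn : w.length ≤ 2 * u.length + 1) :
    w.length / 4 ≤ (sqs w).ncard ∧ ∀ k : ℕ, w.length = 4 * k + 3 → (sqs w).ncard = k →
      (w = List.replicate (2 * k + 1) false ++ [true] ++ List.replicate (2 * k + 1) false ∨
       w = List.replicate (2 * k + 1) true ++ [false] ++ List.replicate (2 * k + 1) true) := by
  have hper := M_per h h'
  have hlen : x'.length + u.length ≤ w.length := by
    rw [h']
    simp
  obtain ⟨M, hM⟩ : ∃ M : ℕ, M = w.length / 2 := ⟨_, rfl⟩
  have hMu : M ≤ u.length := by omega
  by_cases hp : (x'.length : ℤ) - x.length ≤ M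
  · have hc := hGOA (wf w) x.length (x'.length - x.length) M w.length (wf_step w) (by omega)
      (by omega) hp (by omega) (by omega) (fun z hz1 hz2 => hper z hz1 (by omega))
    have hfin := M_le hc
    refine ⟨by omega, ?_⟩
    intro k hk hE
    exfalso
    omega
  · have hx : x.length = 0 := by omega
    have hpe : (x'.length : ℤ) - x.length = M + 1 := by omega
    have hwl : w.length = 2 * M + 1 := by omega
    have hper2 : ∀ z : ℤ, 0 ≤ z → z ≤ M →
        wf w (z + ((M : ℤ) + 1)) = wf w z + (wf w ((M : ℤ) + 1) - wf w 0) := by
      intro z hz1 hz2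
      have := hper z (by omega) (by omega)
      rw [hpe, hx] at this
      simpa using this
    obtain ⟨g, hg1, hg2⟩ := hEXT (wf w) 0 (M + 1) M (wf_step w) (by omega) (by omega)
      (fun z hz1 hz2 => by
        have := hper2 z hz1 (by omega)
        rw [this]
        simp)
    have hc := hTRA (wf w) g 0 (2 * M + 1) w.length _ le_rfl (by omega)
      (fun z hz1 hz2 => hg2 z hz1 (by omega)) (hGOB g M _ hg1 (by omega))
    have hfin := M_le hc
    refine ⟨by omega, ?_⟩
    intro k hk hE
    have hMk : M = 2 * k + 1 := by omega
    rcases hGOU (wf w) M (wf_step w) (by omega) (by omega) hper2 with hc1 | hc1 | hc1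
    · exfalso
      have hwl2 : ((w.length : ℕ) : ℤ) = 2 * (M : ℤ) + 1 := by omega
      rw [← hwl2] at hc1
      have := M_le hc1
      omega
    · right
      have := M_ext w M true hwl (by
        intro j hj
        have h1 := hc1 j (by omega) (by omega)
        rw [M_letter w j hj] at h1
        by_cases hjM : j = M
        · have hz : (j : ℤ) = M := by omega
          rw [if_pos hjM]
          cases hwj : w[j]
          · rfl
          · exfalso
            rw [hwj, if_pos rfl, if_pos hz] at h1
            omega
        · have hz : (j : ℤ) ≠ M := by omega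
          rw [if_neg hjM]
          cases hwj : w[j]
          · exfalso
            rw [hwj, if_neg (by simp), if_neg hz] at h1
            omega
          · rfl)
      rw [hMk] at this
      simpa using this
    · left
      have := M_ext w M false hwl (by
        intro j hj
        have h1 := hc1 j (by omega) (by omega)
        rw [M_letter w j hj] at h1
        by_cases hjM : j = M
        · have hz : (j : ℤ) = M := by omega
          rw [if_pos hjM]
          cases hwj : w[j]
          · exfalso
            rw [hwj, if_neg (by simp), if_pos hz] at h1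
            omega
          · rfl
        · have hz : (j : ℤ) ≠ M := by omega
          rw [if_neg hjM]
          cases hwj : w[j]
          · rfl
          · exfalso
            rw [hwj, if_pos rfl, if_neg hz] at h1
            omega)
      rw [hMk] at this
      simpa using this

end Pool.Agent.helper97.AS
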