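import Pool.Agent.helper20.LB.Defs

/-!
# Distinct abelian squares in binary words with a long repeated factor

`f : ℤ → ℤ` is a prefix counting function (letter `x` is `b` iff `f x = f (x-1) + 1`, and `a` iff
`f x = f (x-1)`).  A pair `s = (c, r)` is the factor with letters `c-r+1, ..., c+r`, centre cut `c`
and radius `r`; it is an abelian square iff `F f c r = f (c+r) + f (c-r) - 2 f c = 0`.
-/

set_option autoImplicit false

namespace Pool.Agent.helper97.AS

open Pool.Agent.helper20.LB (Step F IsSq Same Bd co)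

/-- periodic binary word on the integers: period `p`, `τ` letters `b` in a period -/
def Per (f : ℤ → ℤ) (p τ : ℤ) : Prop := Step f ∧ 1 ≤ p ∧ ∀ x, f (x + p) = f x + τ

/-- `s = (c, r)` is an abelian square between the cuts `x` and `y` -/
def Sq (f : ℤ → ℤ) (x y : ℤ) (s : ℤ × ℤ) : Prop :=
  1 ≤ s.2 ∧ x ≤ s.1 - s.2 ∧ s.1 + s.2 ≤ y ∧ F f s.1 s.2 = 0

/-- `s` is an abelian square between the cuts `x`, `y`, its right half starts with the letter `b`,
and each half has exactly `t` letters `b` (the class of level `t` of the letter `b`).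
The class of level `t` of the letter `a` is `Cls (co f) x y t`. -/
def Cls (f : ℤ → ℤ) (x y t : ℤ) (s : ℤ × ℤ) : Prop :=
  Sq f x y s ∧ f (s.1 + 1) = f s.1 + 1 ∧ f (s.1 + s.2) - f s.1 = t

/-- there are at least `K` pairwise different abelian squares between the cuts `x` and `y` -/
def Cnt (f : ℤ → ℤ) (x y : ℤ) (K : ℕ) : Prop :=
  ∃ A : Finset (ℤ × ℤ), (∀ s ∈ A, Sq f x y s) ∧ (∀ s ∈ A, ∀ t ∈ A, Same f s t → s = t) ∧
    K ≤ A.card

/-- a square of the letter `b` which is not counted by one square in each of the levels `1, ..., K` -/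
def Ext (f : ℤ → ℤ) (x y : ℤ) (K : ℕ) : Prop :=
  (∃ t s, (K : ℤ) < t ∧ Cls f x y t s) ∨
    ∃ t s s', Cls f x y t s ∧ Cls f x y t s' ∧ ¬ Same f s s'

/-- the natural number `max 0 ⌊(T-1)/2⌋` -/
def kk (T : ℤ) : ℕ := ((T - 1) / 2).toNat

/-- Number of letters `b` among the letters `x, ..., x+M+1`. -/
def TT (f : ℤ → ℤ) (x M : ℤ) : ℤ := f (x + M + 1) - f (x - 1)

/-- EXT (short).  Periodic extension of a stretch.
Proof.  Put `τ = f (x+p) - f x` and `g y = f (x + (y-x) % p) + τ * ((y-x) / p)` (Int.emod, Int.ediv).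
`g (y+p) = g y + τ` because `(y+p-x) % p = (y-x) % p` and `(y+p-x)/p = (y-x)/p + 1`.
`Step g`: with `z = y - x`, either `(z+1) / p = z / p` and `(z+1) % p = z % p + 1` (use `Step f`), or
`z % p = p - 1`, `(z+1) % p = 0`, `(z+1)/p = z/p + 1`, and
`g (y+1) - g y = f x + τ - f (x+p-1) = f (x+p) - f (x+p-1)` (use `Step f`).
`g = f` on `[x, x+p+M]`: by the hypothesis `f (y+p) = f y + τ` for `x ≤ y ≤ x+M`; prove by induction on
`k : ℕ` that for `0 ≤ e < p` and `x + e + k*p ≤ x+p+M` one has `f (x+e+k*p) = f (x+e) + τ*k`; for such a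
`y = x + e + k*p`, `(y-x) % p = e` and `(y-x)/p = k`. -/
def EXT_stmt : Prop := ∀ (f : ℤ → ℤ) (x p M : ℤ), Step f → 1 ≤ p → 0 ≤ M →
  (∀ y, x ≤ y → y ≤ x + M → f (y + p) = f y + (f (x + p) - f x)) →
  ∃ g : ℤ → ℤ, Per g p (f (x + p) - f x) ∧ ∀ y, x ≤ y → y ≤ x + p + M → g y = f y

/-- GAL (short).  Positions of the letters `b`: `β i` = least `x` with `i ≤ f x`.
Proof.  From the period, `f (x + k*p) = f x + k*τ` for every `k : ℤ` (induction), so by `1 ≤ τ` for each `i`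
the set `{x | i ≤ f x}` is nonempty and (f is monotone by Step) bounded below: take
`β i = ` its least element (`Int.exists_least_of_bdd`, `Classical.choose`).  `β i ≤ x ↔ i ≤ f x` by
monotonicity.  `β (i+τ) ≤ x ↔ i + τ ≤ f x = f (x-p) + τ ↔ β i ≤ x - p ↔ β i + p ≤ x` for all `x`, so
`β (i+τ) = β i + p`. -/
def GAL_stmt : Prop := ∀ (f : ℤ → ℤ) (p τ : ℤ), Per f p τ → 1 ≤ τ →
  ∃ β : ℤ → ℤ, (∀ i x, β i ≤ x ↔ i ≤ f x) ∧ ∀ i, β (i + τ) = β i + p

/-- UPX (short).  Up-crossing.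
Proof.  Put `g i = d (i+t) - d i`; `g (i+τ) = g i`.  Suppose there is no such `i` in `[i0, i0+τ-1]`; by
periodicity there is none in `ℤ`, i.e. for all `i : ℤ`: `g i ≤ 0 → g (i+1) < 0`.  If `g i > 0` for all `i`,
then `d (i0 + k*t)` is strictly increasing in `k : ℕ`, but `d (i0 + τ*t) = d i0` (period `τ`, `t` times;
`τ.toNat` steps of size `t`): contradiction with `τ ≥ 1`.  Otherwise some `g j ≤ 0`, so `g i < 0` for all
`i > j` (induction), hence for all `i` by periodicity, and `d (i0 + k*t)` is strictly decreasing: the same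
contradiction. -/
def UPX_stmt : Prop := ∀ (d : ℤ → ℤ) (τ t : ℤ), 1 ≤ τ → 1 ≤ t → (∀ i, d (i + τ) = d i) →
  ∀ i0 : ℤ, ∃ i, i0 ≤ i ∧ i ≤ i0 + τ - 1 ∧ d (i + t) - d i ≤ 0 ∧ 0 ≤ d (i + 1 + t) - d (i + 1)

/-- LVL (medium).  For `2t+1 ≤ T` (`T` = number of `b` among the letters `x..x+M+1`) there is a square of
level `t` of the letter `b` between the cuts `x` and `x+p+M`.
Proof.  `1 ≤ τ` (otherwise `τ ≤ 0`; `f` is monotone and periodic, so constant, but
`f (x+M+1) - f (x-1) ≥ 3`).  Take `β` from GAL; `β` is strictly increasing: `f (β i) = i` (from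
`β i ≤ β i` and `¬ β i ≤ β i - 1`, Step), and `f z = i` iff `β i ≤ z ≤ β (i+1) - 1`.
Put `d i = β (i+t) - β i`, `d (i+τ) = d i`.  Let `i0 = f (x-1) + 1`; `¬ β i0 ≤ x-1`, so `x ≤ β i0`.
UPX gives `i` with `i0 ≤ i ≤ i0+τ-1` and
`β i + β (i+2t) - 2 β (i+t) ≤ 0 ≤ β (i+1) + β (i+1+2t) - 2 β (i+1+t)`.
Put `μ = β (i+t+1) - 1 ≥ β (i+t)`.  Then `β i + β (i+2t) ≤ 2 μ ≤ (β (i+1) - 1) + (β (i+2t+1) - 1)`, so there
are `σ ∈ [β i, β (i+1) - 1]`, `ε ∈ [β (i+2t), β (i+2t+1) - 1]` with `σ + ε = 2 μ`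
(`σ = max (β i) (2μ - β (i+2t+1) + 1)`).  Now `f σ = i`, `f μ = i+t`, `f ε = i+2t`, `f (μ+1) = i+t+1`.
The square is `s = (μ, μ - σ)`: `σ < μ` as `f σ < f μ`, `μ + (μ-σ) = ε`.
`σ ≥ β i ≥ β i0 ≥ x`, and `ε ≤ β (i+2t+1) - 1 ≤ β (i0+τ+2t) - 1 = β (i0+2t) + p - 1 ≤ x + p + M` because
`i0 + 2t ≤ f (x+M+1)`. -/
def LVL_stmt : Prop := ∀ (f : ℤ → ℤ) (p τ x M t : ℤ), Per f p τ → 0 ≤ M → 1 ≤ t →
  2 * t + 1 ≤ TT f x M → ∃ s, Cls f x (x + p + M) t s

/-- HALF (medium).  If a period has `2t` letters `b`, there is a square of level `t` of length at most `p`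
in every stretch of length `2p-1`.
Proof.  As in LVL with `τ = 2t` take `β`, `d`, any `i0`, and `i` from UPX; now `β (i+2t) = β i + p` and
`β (i+2t+1) = β (i+1) + p`.  With `μ = β (i+t+1) - 1`: `2 β i ≤ 2μ - p ≤ 2 (β (i+1) - 1)`.
Put `σ = (2μ - p + 1) / 2` and `ε' = 2μ - p - σ` (so `ε' ∈ {σ, σ-1}`; both lie in `[β i, β (i+1) - 1]`: if
`2μ-p` is even both are `(2μ-p)/2`; if it is odd then `2 β i < 2μ-p < 2 (β (i+1) - 1)`).
Put `ε = ε' + p`: `σ + ε = 2μ`, `f σ = i`, `f μ = i+t`, `f ε = i+2t`, `f (μ+1) = i+t+1`, and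
`ε - σ ≤ p`.  Translate by a multiple `k*p` (`f (z + k*p) = f z + k*τ`), such that
`x ≤ σ + k*p ≤ x + p - 1` (`k = -((σ-x)/p)`); then `ε + k*p ≤ σ + k*p + p ≤ x + 2p - 1`. -/
def HALF_stmt : Prop := ∀ (f : ℤ → ℤ) (p t x : ℤ), Per f p (2 * t) → 1 ≤ t →
  ∃ s, Cls f x (x + 2 * p - 1) t s

/-- COU (short to medium).  Counting by classes.
Proof.  Choose squares `S t` (`1 ≤ t ≤ Kb`) with `Cls f x y t (S t)` and `R t` (`1 ≤ t ≤ Ka`) with
`Cls (co f) x y t (R t)`; `A = image S (Icc 1 Kb) ∪ image R (Icc 1 Ka)` (over `ℤ`, or over `ℕ` with casts).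
(1) `Same f s s'` with `1 ≤ s.2` implies equal radii, `f (s.1+1) - f s.1 = f (s'.1+1) - f s'.1` (take
`j = 1`) and equal levels (take `j = s.2`).  So two members of the first family which are `Same` have equal
`t`, hence are equal (the same for the second family: `co f z = z - f z`, and
`co f (c+r) - co f c = r - (f (c+r) - f c)`); a member of the first and one of the second family are never
`Same` (the letter after the centre is `b`, resp. `a`).  (2) A square for `co f` is a square for `f`: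
`F (co f) c r = - F f c r`.  (3) The card is `Kb + Ka` (injective on each family, disjoint). -/
def COU_stmt : Prop := ∀ (f : ℤ → ℤ) (x y : ℤ) (Kb Ka : ℕ),
  (∀ t : ℤ, 1 ≤ t → t ≤ Kb → ∃ s, Cls f x y t s) →
  (∀ t : ℤ, 1 ≤ t → t ≤ Ka → ∃ s, Cls (co f) x y t s) → Cnt f x y (Kb + Ka)

/-- CO1 (medium).  Counting by classes, one more square.
Proof.  As COU (do not cite COU, its proof is repeated with one more element): first let
`Ext f x y Kb` hold.  If it is by `t > Kb` and `s`: `A' = insert s A`; `s` is not `Same` as any member of `A`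
(different level, or different letter after the centre).  If it is by two squares `s, s'` of the same class
and level `t` with `¬ Same f s s'`: if `t > Kb` this is the first case; if `1 ≤ t ≤ Kb` (the level is at
least 1, since the right half starts with `b`: `f (c+r) ≥ f (c+1)` needs monotonicity, from `Step f`), not
both of `s, s'` are `Same` as `S t` (`Same` is symmetric and transitive), insert the other one.
The case `Ext (co f) x y Ka` is the same with `f` replaced by `co f` (`co (co f) = f`,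
`Same (co f) s s' ↔ Same f s s'`, `Sq (co f) ↔ Sq f`, `Cnt (co f) ↔ Cnt f`). -/
def CO1_stmt : Prop := ∀ (f : ℤ → ℤ) (x y : ℤ) (Kb Ka : ℕ), Step f →
  (∀ t : ℤ, 1 ≤ t → t ≤ Kb → ∃ s, Cls f x y t s) →
  (∀ t : ℤ, 1 ≤ t → t ≤ Ka → ∃ s, Cls (co f) x y t s) →
  (Ext f x y Kb ∨ Ext (co f) x y Ka) → Cnt f x y (Kb + Ka + 1)

/-- LIN (short).  The two families of LVL.
Proof.  First part: `t ≤ kk (TT f x M)` and `1 ≤ t` give `2t+1 ≤ TT f x M`; LVL.
Second part: LVL for `co f`: `Per (co f) p (p - τ)`, `TT (co f) x M = M + 2 - TT f x M`. -/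
def LIN_stmt : Prop := ∀ (f : ℤ → ℤ) (p τ x M : ℤ), Per f p τ → 0 ≤ M →
  (∀ t : ℤ, 1 ≤ t → t ≤ kk (TT f x M) → ∃ s, Cls f x (x + p + M) t s) ∧
  (∀ t : ℤ, 1 ≤ t → t ≤ kk (M + 2 - TT f x M) → ∃ s, Cls (co f) x (x + p + M) t s)

/-- The alternatives that give one more square than the two families of LIN, or make them sufficient. -/
def Good (f : ℤ → ℤ) (x p M : ℤ) : Prop :=
  Ext f x (x + p + M) (kk (TT f x M)) ∨ Ext (co f) x (x + p + M) (kk (M + 2 - TT f x M)) ∨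
    (M + 1) / 2 ≤ (kk (TT f x M) : ℤ) + kk (M + 2 - TT f x M)

/-- GOO (short).  `Good` gives the count.
Proof.  LIN and CO1 in the first two cases: the count is `kk T + kk S + 1` with `T = TT f x M`,
`S = M + 2 - T`, `0 ≤ T` and `0 ≤ S` (monotonicity; `f (x+M+1) - f (x-1) ≤ M + 2` by Step), and
`kk T + kk S + 1 ≥ (M+1)/2` (omega after unfolding `kk`, cases `T = 0`, `S = 0`).
Third case: LIN and COU. -/
def GOO_stmt : Prop := ∀ (f : ℤ → ℤ) (p τ x M : ℤ), Per f p τ → 0 ≤ M → Good f x p M →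
  Cnt f x (x + p + M) ((M + 1) / 2).toNat

/-- PUR (short).  A full period doubled is an additional square if `p ≤ M` and `M + 2 ≤ 2p`.
Proof.  `s = (x+p, p)`: `F f (x+p) p = f (x+2p) + f x - 2 f (x+p) = 0`, inside since `p ≤ M`.
`f` is monotone and `0 ≤ τ ≤ p`.  If the letter `x+p+1` is `b`: level `τ`, `1 ≤ τ`, and
`TT f x M ≤ f (x-1+2p) - f (x-1) = 2τ`, so `kk (TT f x M) ≤ τ - 1 < τ`: first alternative of `Good`.
If it is `a`: `Cls (co f) x _ (p-τ) s`, `1 ≤ p - τ`, and in the same way `M+2 - TT f x M ≤ 2 (p-τ)`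
(`co f` is monotone and has period `p`): second alternative. -/
def PUR_stmt : Prop := ∀ (f : ℤ → ℤ) (p τ x M : ℤ), Per f p τ → p ≤ M → M + 2 ≤ 2 * p →
  Good f x p M

/-- ROT (medium).  Rotations of a doubled period, if `2p - 1 ≤ M`.
Proof.  All squares `(y+p, p)` with `x ≤ y ≤ x+M-p` lie between the cuts (they are squares: `F = 0` by the
period).  `p = 1`: `f (y+1) = f y + τ`, `τ ∈ {0,1}`: the word is constant.
`p = 2`: `f (y+2) = f y + τ`, `τ ∈ {0,1,2}`: constant (`τ = 0, 2`, by Step) or alternating (`τ = 1`).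
`p ≥ 3`: `M - p ≥ 2`.  Two of the letters `x+1, x+2, x+3` are equal, say `i+1` and `j+1` with
`i < j`, `i, j ∈ {x, x+1, x+2}`, `δ = j - i ∈ {1, 2}`.  The squares `s = (i+p, p)`, `s' = (j+p, p)` have the
same letter after the centre (`i+p+1`, `j+p+1`) and the same level (`τ` for `b`, `p - τ` for `a`).  If
`¬ Same f s s'` this is the second alternative of `Ext` (for `f` or `co f`).  If `Same f s s'`: for
`-p ≤ k ≤ p`: `f (j+p+k) - f (i+p+k) = f (j+p) - f (i+p)`, i.e. `f (z+δ) - f z` is constant for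
`i ≤ z ≤ i+2p`, hence for all `z` by the period.  `δ = 1`: constant word.  `δ = 2`: `f (z+2) - f z` is
constant, equal to 0, 1 or 2: constant or alternating.
A constant word gives the third alternative of `Good`: `TT f x M = M+2` or `0`,
`kk (M+2) + kk 0 = (M+1)/2`. -/
def ROT_stmt : Prop := ∀ (f : ℤ → ℤ) (p τ x M : ℤ), Per f p τ → 2 * p - 1 ≤ M →
  Good f x p M ∨ ∀ y, f (y + 2) = f y + 1

/-- ALT (medium).  The alternating word.
Proof.  `p` is even (otherwise `f (y+p) = f y + τ` for all `y` and `f (y+2) = f y + 1` give a constant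
letter), so `2 ≤ p`.  Let `q = M / 4`.  `f (z + 2k) = f z + k`.  All `(z + 2k, 2k)` are squares
with `k` letters `b` and `k` letters `a` in each half; the letter after the centre is the letter `z+1`.
`TT f x M = (M+2)/2` if `M` is even, and `(M+1)/2` or `(M+3)/2` if `M` is odd.
`M = 4q`: `kk (2q+1) + kk (2q+1) = 2q = (M+1)/2`: third alternative.
`M = 4q+2`: both counts are `2q+2`, `kk = q`; `s = (x+2(q+1), 2(q+1))` has length `4q+4 = M+2 ≤ p+M`, level
`q+1`: first or second alternative, according to the letter `x+1`.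
`M = 4q+3`: the counts are `2q+3` and `2q+2` in some order, `kk = q+1` and `q`.  Both
`(x+2(q+1), 2(q+1))` and `(x+1+2(q+1), 2(q+1))` lie between the cuts (`4q+5 = M+2 ≤ p+M`); their letters after
the centre are different; take the one of the letter with `kk = q`: level `q+1`.
`M = 4q+1` and `3 ≤ p` (so `4 ≤ p`): `kk (2q+2) = q`, `kk (2q+1) = q`; `4q+4 ≤ p + M`: as for `4q+2`. -/
def ALT_stmt : Prop := ∀ (f : ℤ → ℤ) (p τ x M : ℤ), Per f p τ → 1 ≤ M →
  (∀ y, f (y + 2) = f y + 1) → (M % 4 ≠ 1 ∨ 3 ≤ p) → Good f x p M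

/-- ALX (medium).  An alternating stretch of `M + 2 = 4q + 3` letters in a word with `n ≥ 2M` letters.
Proof.  `M = 4q+1`, `1 ≤ q`; cuts `x .. x+M+2`.  For `z ∈ {x, x+1}` and `1 ≤ k ≤ q` the pair `(z+2k, 2k)` is a
square (`z + 4k ≤ x+1+4q = x+M`); these are `2q` pairwise different squares (`Same` implies equal radii; for
equal radii the first letters `x+1` and `x+2` are different, since `f (x+2) = f x + 1`).  One more: since
`M + 2 < 2M ≤ n`, either `x+M+2 < n` or `1 ≤ x`.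
If `x+M+2 < n`: let `z = x+M+2`.  If `f (z+1) = f (z-1) + 1`, then `(x + 2(q+1), 2(q+1))` is a square (cuts
`x .. x+M+3`, `f (x+M+3) = f (x+M+1) + 1 = f x + 2q + 2`, `f (x+2q+2) = f x + q + 1`), radius `2q+2`.  Otherwise
`f (z+1) - f (z-1) ∈ {0, 2}` (Step), so the letters `z` and `z+1` are equal and `(z, 1)` is a square of
radius 1.  In both cases the radius is different from all `2k`, `1 ≤ k ≤ q`.
If `1 ≤ x`: the same at the left end: if `f (x+1) = f (x-1) + 1`, `(x-1+2(q+1), 2(q+1))` with the cuts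
`x-1 .. x+M+2` (`f (x-1) = f (x+1) - 1`, and `f (x+1+2k) = f (x+1) + k`), otherwise `(x, 1)`.
The count is `2q + 1 = (M+1)/2`. -/
def ALX_stmt : Prop := ∀ (f : ℤ → ℤ) (x M n : ℤ), Step f → 0 ≤ x → x + M + 2 ≤ n → 2 * M ≤ n →
  M % 4 = 1 → 5 ≤ M → (∀ y, x ≤ y → y ≤ x + M → f (y + 2) = f y + 1) →
  Cnt f 0 n ((M + 1) / 2).toNat

/-- TRA (short).  Transfer of a count.
Proof.  The same `A`: all values of `f` and `g` used lie in `[x, y]`, and `Same f s t → Same g s t` for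
squares between the cuts (`s.1 + j ∈ [x, y]` for `|j| ≤ s.2`). -/
def TRA_stmt : Prop := ∀ (f g : ℤ → ℤ) (x y n : ℤ) (K : ℕ), 0 ≤ x → y ≤ n →
  (∀ z, x ≤ z → z ≤ y → g z = f z) → Cnt g x y K → Cnt f 0 n K

/-- GOA (short to medium).  A repeated factor of length `M ≤ n/2` at distance `p ≤ M`.
Proof.  EXT gives `g` with `Per g p τ`.  If `M + 2 ≤ 2p`: PUR, GOO, TRA.  Otherwise ROT for `g`: if
`Good g x p M`: GOO, TRA.  Otherwise `g` is alternating.  If `M % 4 ≠ 1` or `3 ≤ p`: ALT, GOO, TRA.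
Otherwise `p ≤ 2`, `M % 4 = 1`; `p = 1` is impossible (`g (y+1) = g y + τ` and `g (y+2) = g y + 1`), so
`p = 2`, and `M ≥ 2p - 1 = 3` gives `M ≥ 5`; ALX for `f` itself (`f = g` on `[x, x+2+M]`). -/
def GOA_stmt : Prop := ∀ (f : ℤ → ℤ) (x p M n : ℤ), Step f → 0 ≤ x → 1 ≤ p → p ≤ M →
  x + p + M ≤ n → 2 * M ≤ n →
  (∀ y, x ≤ y → y ≤ x + M → f (y + p) = f y + (f (x + p) - f x)) →
  Cnt f 0 n ((M + 1) / 2).toNat

/-- GOB (short to medium).  `p = M + 1`: lower bound.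
Proof.  `T = TT f 0 M = f (M+1) - f (-1)`, `S = M + 2 - T`, `f (-1) = f M - τ`.  LIN and COU give the count
`kk T + kk S`.  If `M` is odd or `T` is odd or `T = 0` or `S = 0` this is at least `M/2` (omega).
Otherwise `M` is even and `T, S ≥ 2` are even.  If the letter `M+1` is `a` (`f (M+1) = f M`): `T = τ`,
`τ = 2t`, HALF with `x = 0` gives `Cls f 0 (2(M+1)-1) t s`, `t = T/2 > kk T`, and `2(M+1)-1 = 0+(M+1)+M`;
CO1 with `Ext f`.  If it is `b`: `T = τ + 1`, `S = (M+1) - τ = 2t`, HALF for `co f` (period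
`M+1`, `co`-count `M+1-τ`); CO1 with `Ext (co f)`.  The count is `kk T + kk S + 1 = M/2`. -/
def GOB_stmt : Prop := ∀ (f : ℤ → ℤ) (M τ : ℤ), Per f (M + 1) τ → 0 ≤ M →
  Cnt f 0 (2 * M + 1) (M / 2).toNat

/-- ONE (medium).  If no window of even length at most `M+1` around the letter `0` (an `a`) is an abelian
square, then the letters `1, ..., M` are `b`.
Proof.  The letter `0` is `a`: `f (-1) = f 0` (from `f (M+1) = f M`, period `M+1`).
`r = 1, y = -1`: `f 1 + f (-1) - 2 f 0 ≠ 0`, so the letter `1` is `b`; `r = 1, y = -2`: the letter `-1` is `b`,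
i.e. `f (-1) = f (-2) + 1`.  Induction: let the letters `1..i` be `b` (`1 ≤ i < M`).  If `i+1` is odd, let
`2r = i+2 ≤ M+1`, `y = -1`: `f (-1) = f 0`, `f (-1+r) = f 0 + r - 1`, so
`f (i+1) + f 0 - 2 (f 0 + r - 1) ≠ 0`; were the letter `i+1` an `a`, `f (i+1) = f i = f 0 + i = f 0 + 2r - 2`:
contradiction.  If `i+1` is even, then `i+1 ≤ M-1` (`M` odd), let `2r = i+3 ≤ M+1`, `y = -2`:
`f (-2) = f 0 - 1`, `f (-2+r) = f 0 + r - 2` (`r ≥ 2`), so `f (i+1) + (f 0 - 1) - 2 (f 0 + r - 2) ≠ 0`; were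
the letter `i+1` an `a`, `f (i+1) = f 0 + i = f 0 + 2r - 3`: contradiction. -/
def ONE_stmt : Prop := ∀ (f : ℤ → ℤ) (M τ : ℤ), Per f (M + 1) τ → 1 ≤ M → M % 2 = 1 →
  f (M + 1) = f M →
  (∀ r y, 1 ≤ r → 2 * r ≤ M + 1 → -(2 * r) ≤ y → y ≤ -1 → f (y + 2 * r) + f y - 2 * f (y + r) ≠ 0) →
  ∀ y, 0 ≤ y → y < M → f (y + 1) = f y + 1

/-- UNI (medium).  `p = M + 1`, `M` odd, `T` odd: one more square, or the extremal word.
Proof.  `T = TT f 0 M`, `S = M+2-T` even, `f (-1) = f M - τ`.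
(i) The letter `M+1` is `b` (`f (M+1) = f M + 1`): `T = τ+1`, `S = M+1-τ`.  If `S = 0`: third alternative of
`Good` (`kk (M+2) + kk 0 = (M+1)/2`).  Otherwise `S = 2t`, `t ≥ 1`, HALF for `co f` (`x = 0`) gives a square of
level `t > kk S`: `Ext (co f)`.
(ii) The letter `M+1` is `a`: `T = τ` is odd, `S = (M+1-τ) + 1`.  Suppose there are `r, y` with `1 ≤ r`,
`2r ≤ M+1`, `-2r ≤ y ≤ -1`, `f (y+2r) + f y - 2 f (y+r) = 0`.  `2r = M+1` is impossible
(`f (y+2r) = f y + τ`, `τ` odd).  So `2r < p = M+1`; put `s = (y+r+p, p-r)`: cuts `y+2r ≥ 0` and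
`y+2p ≤ 2p-1 = 2M+1`, and `F f (y+r+p) (p-r) = f (y+2p) + f (y+2r) - 2 f (y+r+p) = 0` by the period.  Let
`t0 = f (y+r) - f y`, `2 t0 = f (y+2r) - f y ≤ f (y+p) - f y = τ`.  If the letter after the centre is `b`:
level `f (y+2p) - f (y+r+p) = τ - t0 > (τ-1)/2 = kk T` (`τ` odd): `Ext f`.  If it is `a`: level
`(p-r) - (τ-t0) = (p-τ) - (r-t0)`, and `2 (r-t0) ≤ p - τ` (`co f` is monotone), `p - τ` is odd, so the level
is at least `(p-τ+1)/2 > kk S`: `Ext (co f)`.  Otherwise ONE gives the last alternative. -/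
def UNI_stmt : Prop := ∀ (f : ℤ → ℤ) (M τ : ℤ), Per f (M + 1) τ → 1 ≤ M → M % 2 = 1 →
  TT f 0 M % 2 = 1 →
  Good f 0 (M + 1) M ∨ (f (M + 1) = f M ∧ ∀ y, 0 ≤ y → y < M → f (y + 1) = f y + 1)

/-- GOU (short to medium).  `p = M+1`, `M` odd: one more square, or one of the two extremal words.
Proof.  EXT (with `x = 0`) gives `g`, `Per g (M+1) τ`.  If `TT g 0 M` is odd: UNI; in the case `Good`, GOO and
TRA give the count `(M+1)/2` (`0 + (M+1) + M = 2M+1`); otherwise `g = f` on `[0, 2M+1]` gives the second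
alternative: the letters `1..M` are `b`, `M+1` is `a`, and `M+2..2M+1` are `b` by the period.
If `TT g 0 M` is even: UNI for `co g` (`Per (co g) (M+1) (M+1-τ)`, `TT (co g) 0 M = M+2 - TT g 0 M` is
odd); `Good (co g) 0 (M+1) M` gives `Cnt (co g) 0 (2M+1) _` by GOO, and `Cnt (co g) ↔ Cnt g`
(`Sq (co g) ↔ Sq g` since `F (co g) = - F g`; `Same (co g) ↔ Same g`); otherwise the third alternative. -/
def GOU_stmt : Prop := ∀ (f : ℤ → ℤ) (M : ℤ), Step f → 1 ≤ M → M % 2 = 1 →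
  (∀ y, 0 ≤ y → y ≤ M → f (y + (M + 1)) = f y + (f (M + 1) - f 0)) →
  Cnt f 0 (2 * M + 1) ((M + 1) / 2).toNat ∨
  (∀ y, 0 ≤ y → y < 2 * M + 1 → f (y + 1) = f y + (if y = M then 0 else 1)) ∨
  (∀ y, 0 ≤ y → y < 2 * M + 1 → f (y + 1) = f y + (if y = M then 1 else 0))

end Pool.Agent.helper97.AS
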